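import Pool.Agent.V11291.T49.Tam
import Pool.Agent.V11291.Q49.An
import Pool.Agent.Y700.Fin

/-!
# The twists of `X_0(49)` over `ℚ`: minimality, Tamagawa numbers, `L`-function, the formula modulo two
-/

set_option autoImplicit false

open WeierstrassCurve NumberField IsDedekindDomain

open scoped Classical

namespace Pool.Agent.V11291.T49

open Pool.Agent.W97.MT (IsGloballyMinimal affCount ap)
open Pool.Agent.Y700 (tam tamProd IsL Omega psi)
open Pool.Agent.Y698 (Inq bc ec qch EX AP)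
open Pool.Agent.Y698.SG (Spl Gp mat)

theorem Delta49 (j : ℕ) : (W49 (1 + 4 * (j : ℤ))).Δ = -343 * (1 + 4 * (j : ℤ)) ^ 6 := by
  rw [W49_eq]
  simp only [WeierstrassCurve.Δ, WeierstrassCurve.b₂, WeierstrassCurve.b₄, WeierstrassCurve.b₆,
    WeierstrassCurve.b₈]
  ring

section
variable {Q P : Finset ℕ} {j : ℕ}

theorem gp (hQ : ∀ q ∈ Q, Inq q) (hP : ∀ p ∈ P, Spl p) : ∀ q ∈ Q ∪ P, Gp q := by
  intro q hq
  rcases Finset.mem_union.1 hq with h1 | h1
  · exact Gp.of_inq (hQ q h1)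
  · exact Gp.of_spl (hP q h1)

theorem dvd_iff (hG : ∀ q ∈ Q ∪ P, Gp q) (hj : ∏ q ∈ Q ∪ P, q = 1 + 4 * j) {p : ℕ} (hp : p.Prime) :
    p ∣ 1 + 4 * j ↔ p ∈ Q ∪ P := by
  rw [← hj]
  constructor
  · intro h
    obtain ⟨q, hq, h1⟩ := (hp.prime.dvd_finsetProd_iff _).1 h
    rw [(Nat.prime_dvd_prime_iff_eq hp (hG q hq).pr).1 h1]
    exact hq
  · intro h
    exact Finset.dvd_prod_of_mem _ h

theorem sq_not_dvd (hG : ∀ q ∈ Q ∪ P, Gp q) (hj : ∏ q ∈ Q ∪ P, q = 1 + 4 * j) {p : ℕ}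
    (hp : p.Prime) : ¬ p ^ 2 ∣ 1 + 4 * j := by
  have hs : Squarefree (1 + 4 * j) := by
    rw [← hj]
    refine Finset.squarefree_prod_of_pairwise_isCoprime (fun p hp q hq hpq => ?_)
      fun p hp => (hG p hp).pr.squarefree
    show IsRelPrime p q
    exact Nat.coprime_iff_isRelPrime.1 ((Nat.coprime_primes (hG p hp).pr (hG q hq).pr).2 hpq)
  intro h
  rw [pow_two] at h
  exact hp.one_lt.ne' (Nat.isUnit_iff.1 (hs p h))

theorem not7 (hG : ∀ q ∈ Q ∪ P, Gp q) (hj : ∏ q ∈ Q ∪ P, q = 1 + 4 * j) : ¬ 7 ∣ 1 + 4 * j := by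
  rw [dvd_iff hG hj (by norm_num)]
  intro h
  exact (hG 7 h).not_seven (by norm_num)

theorem pf49 (hG : ∀ q ∈ Q ∪ P, Gp q) (hj : ∏ q ∈ Q ∪ P, q = 1 + 4 * j) :
    (W49 (1 + 4 * (j : ℤ))).Δ.natAbs.primeFactors = insert 7 (Q ∪ P) := by
  have e : (W49 (1 + 4 * (j : ℤ))).Δ.natAbs = 7 ^ 3 * (1 + 4 * j) ^ 6 := by
    rw [Delta49, Int.natAbs_mul, Int.natAbs_pow]
    have : (1 + 4 * (j : ℤ)).natAbs = 1 + 4 * j := by omega
    rw [this]
    rfl
  rw [e]
  ext p
  rw [Finset.mem_insert, Nat.mem_primeFactors]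
  constructor
  · rintro ⟨hp, h1, -⟩
    rcases (Nat.Prime.dvd_mul hp).1 h1 with h | h
    · exact Or.inl ((Nat.prime_dvd_prime_iff_eq hp (by norm_num)).1 (hp.dvd_of_dvd_pow h))
    · exact Or.inr ((dvd_iff hG hj hp).1 (hp.dvd_of_dvd_pow h))
  · rintro (rfl | h)
    · exact ⟨by norm_num, Dvd.dvd.mul_right (by norm_num) _, by positivity⟩
    · have hp := (hG p h).pr
      exact ⟨hp, Dvd.dvd.mul_left (dvd_pow ((dvd_iff hG hj hp).2 h) (by norm_num)) _, by positivity⟩

theorem disj (hQ : ∀ q ∈ Q, Inq q) (hP : ∀ p ∈ P, Spl p) : Disjoint Q P := by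
  rw [Finset.disjoint_left]
  intro q h1 h2
  exact (hQ q h1).ns (hP q h2).sq

/-- **the product of the Tamagawa numbers** -/
theorem tamProd49 (hQ : ∀ q ∈ Q, Inq q) (hP : ∀ p ∈ P, Spl p) (hj : ∏ q ∈ Q ∪ P, q = 1 + 4 * j) :
    tamProd (W49 (1 + 4 * (j : ℤ))) = 2 ^ (1 + (Q.card + 2 * P.card)) := by
  have hG := gp hQ hP
  have h7 : 7 ∉ Q ∪ P := fun h => not7 hG hj ((dvd_iff hG hj (by norm_num)).2 h)
  unfold tamProd
  rw [pf49 hG hj, Finset.prod_insert h7]
  have hseven : Nat.Prime 7 := by norm_num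
  have e7 : (if h : Nat.Prime 7 then (haveI := Fact.mk h; tam (W49 (1 + 4 * (j : ℤ))) 7) else 1) = 2 := by
    rw [dif_pos hseven]
    have : Fact (Nat.Prime 7) := ⟨hseven⟩
    exact tam_seven (not7 hG hj)
  rw [e7, Finset.prod_union (disj hQ hP)]
  have eQ : ∏ p ∈ Q, (if h : p.Prime then (haveI := Fact.mk h; tam (W49 (1 + 4 * (j : ℤ))) p) else 1) =
      2 ^ Q.card := by
    rw [Finset.prod_congr rfl (g := fun _ => 2), Finset.prod_const]
    intro p hp
    have h1 := hQ p hp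
    rw [dif_pos h1.pr]
    have : Fact p.Prime := ⟨h1.pr⟩
    exact tam_inert h1.m4 h1.ns ((dvd_iff hG hj h1.pr).2 (Finset.mem_union_left _ hp))
      (sq_not_dvd hG hj h1.pr)
  have eP : ∏ p ∈ P, (if h : p.Prime then (haveI := Fact.mk h; tam (W49 (1 + 4 * (j : ℤ))) p) else 1) =
      4 ^ P.card := by
    rw [Finset.prod_congr rfl (g := fun _ => 4), Finset.prod_const]
    intro p hp
    have h1 := hP p hp
    rw [dif_pos h1.pr]
    have : Fact p.Prime := ⟨h1.pr⟩
    exact tam_split h1.m4 h1.sq ((dvd_iff hG hj h1.pr).2 (Finset.mem_union_right _ hp))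
      (sq_not_dvd hG hj h1.pr)
  rw [eQ, eP, show (4 : ℕ) = 2 ^ 2 by norm_num, ← pow_mul]
  ring

/-- **the equation is minimal** -/
theorem min49 (hG : ∀ q ∈ Q ∪ P, Gp q) (hj : ∏ q ∈ Q ∪ P, q = 1 + 4 * j) :
    IsGloballyMinimal (W49 (1 + 4 * (j : ℤ))) := by
  have hΔ := Delta49 j
  have hM0 : (1 + 4 * (j : ℤ)) ≠ 0 := by omega
  have hs : Squarefree (7 * (1 + 4 * (j : ℤ))) := by
    have h1 : Squarefree (7 * (1 + 4 * j)) := by
      rw [Nat.squarefree_mul ((Nat.Prime.coprime_iff_not_dvd (by norm_num)).2 (not7 hG hj))]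
      refine ⟨(show Nat.Prime 7 by norm_num).squarefree, ?_⟩
      rw [Nat.squarefree_iff_prime_squarefree]
      intro p hp h
      rw [← pow_two] at h
      exact sq_not_dvd hG hj hp h
    exact_mod_cast Int.squarefree_natCast.2 h1
  refine ⟨?_, fun W' C h => ?_⟩
  · rw [hΔ]
    exact mul_ne_zero (by norm_num) (pow_ne_zero _ hM0)
  · have h1 := congrArg WeierstrassCurve.Δ h
    rw [WeierstrassCurve.variableChange_Δ, WeierstrassCurve.map_Δ, WeierstrassCurve.map_Δ] at h1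
    simp only [eq_intCast] at h1
    obtain ⟨q, hq⟩ : ∃ q : ℚ, q = ((C.u⁻¹ : ℚˣ) : ℚ) := ⟨_, rfl⟩
    rw [← hq] at h1
    have hq0 : q ≠ 0 := by rw [hq]; exact Units.ne_zero _
    have h2 : (q.num : ℚ) ^ 12 * ((W49 (1 + 4 * (j : ℤ))).Δ : ℚ) = (W'.Δ : ℚ) * (q.den : ℚ) ^ 12 := by
      have hd : (q.den : ℚ) ≠ 0 := by exact_mod_cast q.den_ne_zero
      rw [← h1]
      have hnd : q * q.den = q.num := Rat.mul_den_eq_num q
      rw [← hnd]
      ring
    have h3 : q.num ^ 12 * (W49 (1 + 4 * (j : ℤ))).Δ = W'.Δ * (q.den : ℤ) ^ 12 := by exact_mod_cast h2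
    have hcop : IsCoprime ((q.den : ℤ) ^ 12) (q.num ^ 12) := by
      refine IsCoprime.pow ?_
      rw [Int.isCoprime_iff_gcd_eq_one, Int.gcd_comm]
      exact q.reduced
    have h4 : (q.den : ℤ) ^ 12 ∣ (W49 (1 + 4 * (j : ℤ))).Δ :=
      hcop.dvd_of_dvd_mul_left ⟨W'.Δ, by rw [h3]; ring⟩
    have h5 : ((q.den : ℤ) ^ 2) ^ 6 ∣ (7 * (1 + 4 * (j : ℤ))) ^ 6 := by
      rw [← pow_mul]
      refine h4.trans ?_
      rw [hΔ]
      exact ⟨-(7 ^ 3), by ring⟩
    have h6 : (q.den : ℤ) ^ 2 ∣ 7 * (1 + 4 * (j : ℤ)) := (Int.pow_dvd_pow_iff (by norm_num)).1 h5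
    rw [pow_two] at h6
    have h7 := hs _ h6
    have h8 : q.den = 1 := by
      rcases Int.isUnit_iff.1 h7 with h | h
      · exact_mod_cast h
      · omega
    rw [h8] at h3
    have h9 : W'.Δ = q.num ^ 12 * (W49 (1 + 4 * (j : ℤ))).Δ := by rw [h3]; simp
    rw [h9, abs_mul]
    have h10 : 1 ≤ |q.num ^ 12| := by
      apply Int.one_le_abs
      exact pow_ne_zero _ (Rat.num_ne_zero.2 hq0)
    nlinarith [abs_nonneg (W49 (1 + 4 * (j : ℤ))).Δ]

/-! ### the affine points of the reductions -/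

theorem map49 (k : Type) [Field k] : (W49 (1 + 4 * (j : ℤ))).map (Int.castRingHom k) =
    EX k (j : k) := by
  rw [W49_eq]
  unfold EX WeierstrassCurve.map
  simp only [eq_intCast]
  push_cast
  rfl

theorem aff49 (p : ℕ) [Fact p.Prime] :
    affCount (W49 (1 + 4 * (j : ℤ))) p = Nat.card (AP (EX (ZMod p) (j : ZMod p))) := by
  unfold affCount
  rw [map49]
  rfl

/-- a cusp has `p` affine points -/
theorem cusp (p : ℕ) [hp : Fact p.Prime] (h2 : p ≠ 2) (c : ZMod p)
    (h : ∀ x y : ZMod p, (EX (ZMod p) (j : ZMod p)).toAffine.Equation x y ↔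
      (y + x / 2) ^ 2 = (x - c) ^ 3) : Nat.card (AP (EX (ZMod p) (j : ZMod p))) = p := by
  have h20 : (2 : ZMod p) ≠ 0 := by
    intro h
    have : ((2 : ℕ) : ZMod p) = 0 := by exact_mod_cast h
    rw [ZMod.natCast_eq_zero_iff] at this
    exact h2 ((Nat.prime_dvd_prime_iff_eq hp.out Nat.prime_two).1 this)
  have e : AP (EX (ZMod p) (j : ZMod p)) ≃ ZMod p :=
    { toFun := fun P => if P.1.1 = c then 0 else (P.1.2 + P.1.1 / 2) / (P.1.1 - c)
      invFun := fun t => ⟨(c + t ^ 2, t ^ 3 - (c + t ^ 2) / 2), (h _ _).2 (by ring)⟩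
      left_inv := by
        rintro ⟨⟨x, y⟩, hE⟩
        have h1 : (y + x / 2) ^ 2 = (x - c) ^ 3 := (h x y).1 hE
        apply Subtype.ext
        by_cases hx : x = c
        · have h3 : y + x / 2 = 0 := by
            rw [hx, sub_self, zero_pow (by norm_num)] at h1
            rw [hx]
            exact pow_eq_zero_iff two_ne_zero |>.1 h1
          simp only [hx, if_true]
          rw [Prod.mk.injEq]
          refine ⟨by ring, ?_⟩
          rw [hx] at h3
          linear_combination -h3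
        · have hxc : x - c ≠ 0 := sub_ne_zero.2 hx
          simp only [if_neg hx]
          have h4 : ((y + x / 2) / (x - c)) ^ 2 = x - c := by
            rw [div_pow, h1]
            field_simp
          have h5 : c + ((y + x / 2) / (x - c)) ^ 2 = x := by
            rw [h4]
            ring
          rw [Prod.mk.injEq]
          refine ⟨h5, ?_⟩
          rw [h5, pow_succ, h4, mul_div_cancel₀ _ hxc]
          ring
      right_inv := by
        intro t
        by_cases ht : t = 0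
        · subst ht
          simp
        · have h3 : c + t ^ 2 ≠ c := by
            intro h4
            apply ht
            have : t ^ 2 = 0 := by linear_combination h4
            exact pow_eq_zero_iff two_ne_zero |>.1 this
          simp only [if_neg h3]
          have e1 : t ^ 3 - (c + t ^ 2) / 2 + (c + t ^ 2) / 2 = t ^ 3 := by ring
          have e2 : c + t ^ 2 - c = t ^ 2 := by ring
          rw [e1, e2]
          field_simp }
  rw [Nat.card_congr e, Nat.card_zmod]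

theorem card_bad {p : ℕ} [hp : Fact p.Prime] (h4 : p % 4 = 1) (h : p ∣ 1 + 4 * j) :
    Nat.card (AP (EX (ZMod p) (j : ZMod p))) = p := by
  have h2 : p ≠ 2 := by omega
  have h20 : (2 : ZMod p) ≠ 0 := by
    intro h
    have : ((2 : ℕ) : ZMod p) = 0 := by exact_mod_cast h
    rw [ZMod.natCast_eq_zero_iff] at this
    exact h2 ((Nat.prime_dvd_prime_iff_eq hp.out Nat.prime_two).1 this)
  have hD : (1 + 4 * (j : ZMod p)) = 0 := by
    have := (ZMod.natCast_eq_zero_iff (1 + 4 * j) p).2 h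
    push_cast at this
    exact this
  have h40 : (4 : ZMod p) ≠ 0 := by
    rw [show (4 : ZMod p) = 2 ^ 2 by norm_num]
    exact pow_ne_zero _ h20
  refine cusp p h2 0 fun x y => ?_
  rw [Affine.equation_iff]
  unfold EX
  simp only
  rw [hD]
  have e : (1 + 3 * (j : ZMod p)) = 1 / 4 := by
    field_simp
    linear_combination 3 * hD
  rw [e]
  have e5 : (y + x / 2) ^ 2 = y ^ 2 + x * y + 1 / 4 * x ^ 2 := by
    field_simp
    ring
  rw [e5]
  constructor
  · intro h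
    linear_combination h
  · intro h
    linear_combination h

theorem key7 : ∀ x y t : ZMod 7, (y ^ 2 + 1 * x * y + 0 * y = x ^ 3 + -(1 + 3 * t) * x ^ 2 +
      -2 * (1 + 4 * t) ^ 2 * x + -(1 + 4 * t) ^ 3) ↔
      (y + 4 * x) ^ 2 = (x - 2 * (1 + 4 * t)) ^ 3 := by decide

theorem two7 : (2 : ZMod 7) ≠ 0 := by decide

theorem sev7 : (7 : ZMod 7) = 0 := by decide

theorem card_seven [hp : Fact (Nat.Prime 7)] :
    Nat.card (AP (EX (ZMod 7) (j : ZMod 7))) = 7 := by
  refine cusp 7 (by norm_num) (2 * (1 + 4 * (j : ZMod 7))) fun x y => ?_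
  rw [Affine.equation_iff]
  unfold EX
  simp only
  have e2 : x / 2 = 4 * x := by
    have h20 : (2 : ZMod 7) ≠ 0 := two7
    have h7 : (7 : ZMod 7) = 0 := sev7
    rw [div_eq_iff h20]
    linear_combination -x * h7
  rw [e2]
  exact key7 x y j

end

end Pool.Agent.V11291.T49
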