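import Pool.Agent.Y698.Uc
import Pool.Agent.Y700.Defs
import Pool.Agent.Y809.BSD14.Tam3
import Pool.Agent.Y319.Z702.LOC
import Pool.Agent.W22.RK.Loc

/-!
# The Tamagawa numbers of the twists of `X_0(49)` over `ℚ_p`
-/

set_option autoImplicit false

open WeierstrassCurve WithZero

open scoped Classical

namespace Pool.Agent.V11291.T49

open Pool.Agent.Y700 (E0 SingRed PtP tam)

/-- the minimal equation of the twist of `X_0(49)` by `D = 1 mod 4` -/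
def W49 (D : ℤ) : WeierstrassCurve ℤ := ⟨1, -((3 * D + 1) / 4), 0, -2 * D ^ 2, -D ^ 3⟩

theorem W49_eq (j : ℕ) : W49 (1 + 4 * (j : ℤ)) =
    ⟨1, -(1 + 3 * (j : ℤ)), 0, -2 * (1 + 4 * (j : ℤ)) ^ 2, -(1 + 4 * (j : ℤ)) ^ 3⟩ := by
  unfold W49
  have : (3 * (1 + 4 * (j : ℤ)) + 1) / 4 = 1 + 3 * j := by omega
  rw [this]

section

variable {p : ℕ} [hp : Fact p.Prime]

/-- the valuation -/
noncomputable abbrev vp (p : ℕ) [Fact p.Prime] : Valuation ℚ_[p] ℤᵐ⁰ := Padic.mulValuation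

theorem vp_ne {x : ℚ_[p]} (hx : x ≠ 0) : vp p x = exp (-x.valuation) := by
  unfold vp Padic.mulValuation
  show (if x = 0 then (0 : ℤᵐ⁰) else exp (-x.valuation)) = _
  rw [if_neg hx]

theorem vp_lt {x y : ℚ_[p]} : vp p x < vp p y ↔ ‖x‖ < ‖y‖ := by
  have h1 : (1 : ℝ) < p := by exact_mod_cast hp.out.one_lt
  by_cases hx : x = 0
  · subst hx
    rw [map_zero, norm_zero, zero_lt_iff, Valuation.ne_zero_iff, norm_pos_iff]
  by_cases hy : y = 0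
  · subst hy
    rw [map_zero, norm_zero]
    refine iff_of_false (not_lt.2 zero_le) (not_lt.2 (norm_nonneg _))
  · rw [vp_ne hx, vp_ne hy, exp_lt_exp, Padic.norm_eq_zpow_neg_valuation hx,
      Padic.norm_eq_zpow_neg_valuation hy, zpow_lt_zpow_iff_right₀ h1]

theorem vp_le {x y : ℚ_[p]} : vp p x ≤ vp p y ↔ ‖x‖ ≤ ‖y‖ := by
  rw [← not_lt, ← not_lt, vp_lt]

theorem vp_eq {x y : ℚ_[p]} : vp p x = vp p y ↔ ‖x‖ = ‖y‖ := by
  rw [le_antisymm_iff, le_antisymm_iff, vp_le, vp_le]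

theorem vp_lt_one {x : ℚ_[p]} : vp p x < 1 ↔ ‖x‖ < 1 := by
  have := vp_lt (p := p) (x := x) (y := 1)
  rwa [map_one, norm_one] at this

theorem vp_one_lt {x : ℚ_[p]} : 1 < vp p x ↔ 1 < ‖x‖ := by
  have := vp_lt (p := p) (x := 1) (y := x)
  rwa [map_one, norm_one] at this

theorem vp_one {x : ℚ_[p]} : vp p x = 1 ↔ ‖x‖ = 1 := by
  have := vp_eq (p := p) (x := x) (y := 1)
  rwa [map_one, norm_one] at this

theorem vp_exp {x : ℚ_[p]} (h : ‖x‖ = (p : ℝ)⁻¹) : vp p x = exp (-1 : ℤ) := by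
  have h1 : (1 : ℝ) < p := by exact_mod_cast hp.out.one_lt
  have hx : x ≠ 0 := by
    rintro rfl
    rw [norm_zero] at h
    have : (0 : ℝ) < (p : ℝ)⁻¹ := by positivity
    rw [← h] at this
    exact lt_irrefl _ this
  rw [vp_ne hx, exp_inj]
  rw [Padic.norm_eq_zpow_neg_valuation hx, ← zpow_neg_one] at h
  exact (zpow_right_inj₀ (by linarith) (by linarith)).1 h

/-- the two descriptions of the points with nonsingular reduction -/
theorem sing_iff {W : WeierstrassCurve ℤ} {x y : ℚ_[p]}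
    (h : (W.map (Int.castRingHom ℚ_[p])).toAffine.Equation x y) :
    ¬ SingRed W p x y ↔ (1 < vp p x ∨
      vp p ((W.map (Int.castRingHom ℚ_[p])).a₁ * y - (3 * x ^ 2 +
        2 * (W.map (Int.castRingHom ℚ_[p])).a₂ * x + (W.map (Int.castRingHom ℚ_[p])).a₄)) = 1 ∨
      vp p (2 * y + (W.map (Int.castRingHom ℚ_[p])).a₁ * x +
        (W.map (Int.castRingHom ℚ_[p])).a₃) = 1) := by
  rw [Affine.equation_iff] at h
  have i1 := Padic.norm_int_le_one (p := p) W.a₁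
  have i2 := Padic.norm_int_le_one (p := p) W.a₂
  have i3 := Padic.norm_int_le_one (p := p) W.a₃
  have i4 := Padic.norm_int_le_one (p := p) W.a₄
  have i6 := Padic.norm_int_le_one (p := p) W.a₆
  have j2 := Padic.norm_int_le_one (p := p) 2
  have j3 := Padic.norm_int_le_one (p := p) 3
  push_cast at j2 j3
  rw [vp_one_lt, vp_one, vp_one]
  have e1 : (W.map (Int.castRingHom ℚ_[p])).a₁ = (W.a₁ : ℚ_[p]) := rfl
  have e2 : (W.map (Int.castRingHom ℚ_[p])).a₂ = (W.a₂ : ℚ_[p]) := rfl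
  have e3 : (W.map (Int.castRingHom ℚ_[p])).a₃ = (W.a₃ : ℚ_[p]) := rfl
  have e4 : (W.map (Int.castRingHom ℚ_[p])).a₄ = (W.a₄ : ℚ_[p]) := rfl
  have e6 : (W.map (Int.castRingHom ℚ_[p])).a₆ = (W.a₆ : ℚ_[p]) := rfl
  rw [e1, e2, e3, e4, e6] at h
  rw [e1, e2, e3, e4]
  unfold SingRed
  have hm : ∀ {a b : ℚ_[p]}, ‖a‖ ≤ 1 → ‖b‖ ≤ 1 → ‖a * b‖ ≤ 1 := fun {a b} ha hb => by
    rw [norm_mul]
    exact mul_le_one₀ ha (norm_nonneg _) hb
  have ha : ∀ {a b : ℚ_[p]}, ‖a‖ ≤ 1 → ‖b‖ ≤ 1 → ‖a + b‖ ≤ 1 := fun {a b} ha hb =>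
    (Padic.nonarchimedean a b).trans (max_le ha hb)
  have hp' : ∀ {a : ℚ_[p]} (n : ℕ), ‖a‖ ≤ 1 → ‖a ^ n‖ ≤ 1 := fun {a} n ha => by
    rw [norm_pow]
    exact pow_le_one₀ (norm_nonneg _) ha
  have hs : ∀ {a b : ℚ_[p]}, ‖a‖ ≤ 1 → ‖b‖ ≤ 1 → ‖a - b‖ ≤ 1 := fun {a b} h1 h2 => by
    rw [sub_eq_add_neg]
    exact ha h1 (by rwa [norm_neg])
  rcases lt_or_ge 1 ‖x‖ with hx | hx
  · exact iff_of_true (fun h' => absurd h'.1 (not_le.2 hx)) (Or.inl hx)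
  · have hy : ‖y‖ ≤ 1 := by
      by_contra hy
      push Not at hy
      have h1 : ‖x ^ 3 + (W.a₂ : ℚ_[p]) * x ^ 2 + (W.a₄ : ℚ_[p]) * x + (W.a₆ : ℚ_[p])‖ ≤ 1 :=
        ha (ha (ha (hp' 3 hx) (hm i2 (hp' 2 hx))) (hm i4 hx)) i6
      have h2 : y ^ 2 = (x ^ 3 + (W.a₂ : ℚ_[p]) * x ^ 2 + (W.a₄ : ℚ_[p]) * x + (W.a₆ : ℚ_[p])) -
          ((W.a₁ : ℚ_[p]) * x + (W.a₃ : ℚ_[p])) * y := by linear_combination h
      have h3 : ‖((W.a₁ : ℚ_[p]) * x + (W.a₃ : ℚ_[p])) * y‖ ≤ ‖y‖ := by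
        rw [norm_mul]
        exact mul_le_of_le_one_left (norm_nonneg _) (ha (hm i1 hx) i3)
      have h4 : ‖y ^ 2‖ ≤ ‖y‖ := by
        rw [h2, sub_eq_add_neg]
        refine (Padic.nonarchimedean _ _).trans (max_le (h1.trans hy.le) ?_)
        rw [norm_neg]
        exact h3
      rw [norm_pow] at h4
      nlinarith
    have f1 : ‖(W.a₁ : ℚ_[p]) * y - (3 * x ^ 2 + 2 * (W.a₂ : ℚ_[p]) * x + (W.a₄ : ℚ_[p]))‖ ≤ 1 :=
      hs (hm i1 hy) (ha (ha (hm j3 (hp' 2 hx)) (hm (hm j2 i2) hx)) i4)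
    have f2 : ‖2 * y + (W.a₁ : ℚ_[p]) * x + (W.a₃ : ℚ_[p])‖ ≤ 1 :=
      ha (ha (hm j2 hy) (hm i1 hx)) i3
    constructor
    · intro hn
      by_contra hc
      push Not at hc
      obtain ⟨-, c1, c2⟩ := hc
      exact hn ⟨hx, hy, lt_of_le_of_ne f1 c1, lt_of_le_of_ne f2 c2⟩
    · rintro (h1 | h1 | h1) ⟨-, -, k1, k2⟩
      · exact absurd hx (not_le.2 h1)
      · rw [h1] at k1
        exact lt_irrefl _ k1
      · rw [h1] at k2
        exact lt_irrefl _ k2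

/-- the index in the form of `idxD` -/
theorem tam_eq (W : WeierstrassCurve ℤ) : tam W p =
    (AddSubgroup.closure {P : (W.map (Int.castRingHom ℚ_[p])).toAffine.Point |
      ∀ x y h, P = Affine.Point.some x y h →
      1 < vp p x ∨ vp p ((W.map (Int.castRingHom ℚ_[p])).a₁ * y - (3 * x ^ 2 +
        2 * (W.map (Int.castRingHom ℚ_[p])).a₂ * x + (W.map (Int.castRingHom ℚ_[p])).a₄)) = 1 ∨
      vp p (2 * y + (W.map (Int.castRingHom ℚ_[p])).a₁ * x +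
        (W.map (Int.castRingHom ℚ_[p])).a₃) = 1}).index := by
  unfold tam E0
  congr 2
  ext P
  exact forall_congr' fun x => forall_congr' fun y => forall_congr' fun h => imp_congr Iff.rfl
    (sing_iff h.1)

/-- the data of the change of variables -/
theorem vchp (j : ℕ) : Pool.Agent.Y698.VchD j ((W49 (1 + 4 * (j : ℤ))).map (Int.castRingHom ℚ_[p]))
    ⟨0, 21 * (1 + 4 * (j : ℚ_[p])), 0, 112 * (1 + 4 * (j : ℚ_[p])) ^ 2, 0⟩ := by
  rw [W49_eq]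
  refine ⟨?_, ?_, ?_, ?_, ?_, rfl, rfl, rfl, rfl, rfl⟩
  · show ((1 : ℤ) : ℚ_[p]) = 1
    norm_num
  · show ((-(1 + 3 * (j : ℤ)) : ℤ) : ℚ_[p]) = _
    push_cast
    rfl
  · show ((0 : ℤ) : ℚ_[p]) = 0
    norm_num
  · show ((-2 * (1 + 4 * (j : ℤ)) ^ 2 : ℤ) : ℚ_[p]) = _
    push_cast
    rfl
  · show ((-(1 + 4 * (j : ℤ)) ^ 3 : ℤ) : ℚ_[p]) = _
    push_cast
    rfl

theorem norm_D {j : ℕ} (h : ¬ p ∣ 1 + 4 * j) : ‖(1 + 4 * (j : ℚ_[p]))‖ = 1 := by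
  have h1 := Pool.Agent.Y809.BSD14.norm_nat_eq_one p ((Nat.Prime.coprime_iff_not_dvd hp.out).2 h)
  push_cast at h1
  exact h1

theorem norm_D' {j : ℕ} (h : p ∣ 1 + 4 * j) (h2 : ¬ p ^ 2 ∣ 1 + 4 * j) :
    ‖(1 + 4 * (j : ℚ_[p]))‖ = (p : ℝ)⁻¹ := by
  have h1 := Pool.Agent.Y809.BSD14.norm_M p (M := ((1 + 4 * j : ℕ) : ℤ))
    (by exact_mod_cast h) (by exact_mod_cast h2)
  push_cast at h1
  exact h1

theorem norm_seven (h : p ≠ 7) : ‖(7 : ℚ_[p])‖ = 1 := by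
  have h1 := Pool.Agent.Y809.BSD14.norm_nat_eq_one p (n := 7)
    ((Nat.coprime_primes hp.out (by norm_num)).2 h)
  exact_mod_cast h1

theorem tam_good {j : ℕ} (h7 : p ≠ 7) (hD : ¬ p ∣ 1 + 4 * j) : tam (W49 (1 + 4 * (j : ℤ))) p = 1 := by
  rw [tam_eq]
  exact Pool.Agent.Y698.idxD_one (vchp j) (by rw [vp_one]; exact norm_seven h7)
    (by rw [vp_one]; exact norm_D hD)

theorem tam_seven [Fact (Nat.Prime 7)] {j : ℕ} (hD : ¬ 7 ∣ 1 + 4 * j) :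
    tam (W49 (1 + 4 * (j : ℤ))) 7 = 2 := by
  rw [tam_eq]
  refine Pool.Agent.Y698.idxD_seven (vchp j) (vp_exp ?_) (by rw [vp_one]; exact norm_D hD)
  have := Padic.norm_p (p := 7)
  exact_mod_cast this

theorem m7_of (h2 : p ≠ 2) (h7 : p ≠ 7) (h : IsSquare (-7 : ZMod p)) : IsSquare (-7 : ℚ_[p]) := by
  have h1 := Pool.Agent.Y319.Z702.padic_sq (p := p) h2 (n := -7) (fun h' => by
    rw [Int.dvd_neg] at h'
    have : p ∣ 7 := by exact_mod_cast h'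
    exact h7 ((Nat.prime_dvd_prime_iff_eq hp.out (by norm_num)).1 this)) (by
      push_cast
      exact h)
  push_cast at h1
  exact h1

theorem of_m7 (h7 : p ≠ 7) (h : IsSquare (-7 : ℚ_[p])) : IsSquare (-7 : ZMod p) := by
  obtain ⟨z, hz⟩ := h
  have h1 : ‖z‖ = 1 := by
    have h2 : ‖z‖ * ‖z‖ = 1 := by
      rw [← norm_mul, ← hz, norm_neg]
      exact norm_seven h7
    have h3 := norm_nonneg z
    nlinarith
  let w : ℤ_[p] := ⟨z, h1.le⟩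
  have hw : (-7 : ℤ_[p]) = w * w := by
    apply PadicInt.ext
    push_cast
    exact hz
  refine ⟨PadicInt.toZMod w, ?_⟩
  rw [← map_mul, ← hw, map_neg, map_ofNat]

theorem m1_of (h4 : p % 4 = 1) : IsSquare (-1 : ℚ_[p]) := by
  have h1 := Pool.Agent.Y319.Z702.padic_sq (p := p) (by omega) (n := -1) (fun h' => by
    rw [Int.dvd_neg] at h'
    have : p ∣ 1 := by exact_mod_cast h'
    exact hp.out.one_lt.ne' (Nat.dvd_one.1 this)) (by
      push_cast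
      exact ZMod.exists_sq_eq_neg_one_iff.2 (by omega))
  push_cast at h1
  exact h1

theorem hensel (h2 : p ≠ 2) (x : ℚ_[p]) (h : vp p (x - 1) < 1) : IsSquare x := by
  rw [vp_lt_one] at h
  have := Pool.Agent.W22.RK.isSquare_one_add h2 (x - 1) h
  rwa [add_sub_cancel] at this

theorem tam_inert {j : ℕ} (h4 : p % 4 = 1) (h7 : ¬ IsSquare (-7 : ZMod p)) (h : p ∣ 1 + 4 * j)
    (h2 : ¬ p ^ 2 ∣ 1 + 4 * j) : tam (W49 (1 + 4 * (j : ℤ))) p = 2 := by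
  have hp2 : p ≠ 2 := by omega
  have hp7 : p ≠ 7 := by omega
  rw [tam_eq]
  exact Pool.Agent.Y698.idxD_two (vchp j)
    (by rw [vp_one]; exact_mod_cast Pool.Agent.Y809.BSD14.norm_two_pow p hp2 1)
    (by rw [vp_one]; exact norm_seven hp7) (vp_exp (norm_D' h h2)) (hensel hp2)
    (fun h' => h7 (of_m7 hp7 h')) (m1_of h4)

theorem tam_split {j : ℕ} (h4 : p % 4 = 1) (h7 : IsSquare (-7 : ZMod p)) (h : p ∣ 1 + 4 * j)
    (h2 : ¬ p ^ 2 ∣ 1 + 4 * j) : tam (W49 (1 + 4 * (j : ℤ))) p = 4 := by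
  have hp2 : p ≠ 2 := by omega
  have hp7 : p ≠ 7 := by omega
  obtain ⟨z, hz⟩ := m7_of hp2 hp7 h7
  rw [tam_eq]
  exact Pool.Agent.Y698.idxD_four (vchp j)
    (by rw [vp_one]; exact_mod_cast Pool.Agent.Y809.BSD14.norm_two_pow p hp2 1)
    (by rw [vp_one]; exact norm_seven hp7) (vp_exp (norm_D' h h2)) (a := (1 + z) / 2) (by
      field_simp
      linear_combination -hz)

end

end Pool.Agent.V11291.T49
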