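import Pool.Agent.V11291.T49.Val
import Pool.Agent.V11291.F9.Pos
import Pool.Agent.V11291.F9.Low
import Pool.Agent.V11291.E49.Multi

/-!
# The formula modulo two for the twists of `X_0(14)` and `X_0(49)` at once
-/

set_option autoImplicit false

open WeierstrassCurve

open scoped Classical

namespace Pool.Agent.V11291.T49

open Pool.Agent.Y700 (tamProd IsL Omega WM)
open Pool.Agent.Y687.MQ (AdmD matD)
open Pool.Agent.Y687.JQ (CL of_adm DD_mul sqf_unique prod_symmDiff tendsto_exc)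
open Pool.Agent.Y687 (DD DD_natAbs)
open Pool.Agent.V11291.E49 (R14 R49 BaseN Fam49 PR CL5 PR_cast)
open Pool.Agent.V11291.Q49 (exists_aux)
open Pool.Agent.Y698 (Inq v_oddI)
open Pool.Agent.Y698.SG (Spl mat)

/-! ### valuations of rational numbers -/

section
variable {Γ : Type} [LinearOrderedCommGroupWithZero Γ] (v : Valuation ℂ Γ)

theorem v_nat_le (n : ℕ) : v (n : ℂ) ≤ 1 := by
  induction n with
  | zero => rw [Nat.cast_zero, map_zero]; exact zero_le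
  | succ n ih =>
    push_cast
    exact (v.map_add _ _).trans (max_le ih (by rw [map_one]))

theorem v_int_le (n : ℤ) : v (n : ℂ) ≤ 1 := by
  have h1 := v_nat_le v n.natAbs
  have e : ((n.natAbs : ℕ) : ℂ) = (((n.natAbs : ℕ) : ℤ) : ℂ) := (Int.cast_natCast _).symm
  rw [e] at h1
  rcases Int.natAbs_eq n with h | h
  · rwa [← h] at h1
  · have e2 : (n : ℂ) = -(((n.natAbs : ℕ) : ℤ) : ℂ) := by
      rw [← Int.cast_neg, ← h]
    rw [e2, Valuation.map_neg]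
    exact h1

theorem v_unit (hv : v 2 < 1) {w : ℚ} (hw : w ≠ 0) (h0 : padicValRat 2 w = 0) : v (w : ℂ) = 1 := by
  have : Fact (Nat.Prime 2) := ⟨Nat.prime_two⟩
  have hcop := w.reduced
  unfold padicValRat at h0
  have hn : Odd w.num := by
    by_contra h
    rw [Int.not_odd_iff_even] at h
    have h2 : (2 : ℤ) ∣ w.num := even_iff_two_dvd.1 h
    have h3 : ¬ 2 ∣ w.den := by
      intro h4
      have h5 : 2 ∣ w.num.natAbs := Int.natCast_dvd.1 (by exact_mod_cast h2)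
      have := Nat.dvd_gcd h5 h4
      rw [hcop] at this
      omega
    have h4 : padicValNat 2 w.den = 0 := padicValNat.eq_zero_of_not_dvd h3
    have h5 : 1 ≤ padicValInt 2 w.num := by
      have h6 := (padicValInt_dvd_iff (p := 2) 1 w.num).1 (by simpa using h2)
      rcases h6 with h6 | h6
      · exact absurd (Rat.num_ne_zero.2 hw) (not_not.2 h6)
      · exact h6
    rw [h4] at h0
    omega
  have hd : Odd (w.den : ℤ) := by
    by_contra h
    rw [Int.not_odd_iff_even] at h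
    have h2 : (2 : ℤ) ∣ (w.den : ℤ) := even_iff_two_dvd.1 h
    have h2' : 2 ∣ w.den := by exact_mod_cast h2
    have h4 : padicValInt 2 w.num = 0 := padicValInt.eq_zero_of_not_dvd (by
      intro h
      have := Int.odd_iff.1 hn
      omega)
    have h5 : 1 ≤ padicValNat 2 w.den := one_le_padicValNat_of_dvd w.den_ne_zero h2'
    rw [h4] at h0
    omega
  have e : (w : ℂ) = (w.num : ℂ) / ((w.den : ℤ) : ℂ) := by
    have := Rat.cast_def (K := ℂ) w
    rw [this]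
    push_cast
    rfl
  rw [e, map_div₀, v_oddI v hv hn, v_oddI v hv hd, div_one]

theorem v_sq (hv : v 2 < 1) (y : ℤ) : v ((y : ℂ) ^ 2) = 1 ↔ Odd y := by
  rw [map_pow]
  constructor
  · intro h
    by_contra h1
    rw [Int.not_odd_iff_even] at h1
    obtain ⟨k, hk⟩ := h1
    have h2 : v (y : ℂ) < 1 := by
      rw [hk]
      push_cast
      rw [← two_mul, map_mul]
      exact mul_lt_one_of_lt_of_le hv (v_int_le v k)
    have h3 : v (y : ℂ) ^ 2 < 1 := pow_lt_one₀ zero_le h2 two_ne_zero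
    exact h3.ne h
  · intro h
    rw [v_oddI v hv h, one_pow]

end

/-! ### the first curve -/

/-- `E(ℚ)` is finite and `Ш(E)` has no element of order two -/
def RZ (W : WeierstrassCurve ℤ) : Prop :=
  Finite (W.map (Int.castRingHom ℚ)).toAffine.Point ∧
    ∀ x : Pool.Agent.TH841.SH.D.Sha (W.map (Int.castRingHom ℚ)), x + x = 0 → x = 0

theorem rz14 {N : ℤ} (h : AdmD N) : RZ (WM N) ↔ (matD N).det ≠ 0 :=
  Pool.Agent.Y682.YQ.zer_iff h

theorem main14 {N : ℤ} (h : AdmD N) (h1 : N ≠ 1) :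
    ∃ Λ : ℂ → ℂ, IsL (WM N) Λ ∧ ∀ (Γ : Type) [LinearOrderedCommGroupWithZero Γ]
      (v : Valuation ℂ Γ), v 2 < 1 → v (an (WM N) (Λ 1)) ≤ 1 ∧
        (v (an (WM N) (Λ 1)) = 1 ↔ RZ (WM N)) := by
  obtain ⟨⟨L₀, hL₀⟩, y, hy, hval⟩ := Pool.Agent.Y682.YQ.val h h1
  obtain ⟨hne, w, hw, hv, hf⟩ := hval L₀ hL₀
  refine ⟨L₀, hL₀, fun Γ _ v h2 => ?_⟩
  have hO : 0 < Omega (WM N) := Pool.Agent.V11291.F9.omega_pos h.2.1
  have hT : 0 < tamProd (WM N) := Nat.pos_of_ne_zero (Pool.Agent.Y682.YQ.tam_val h).1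
  have ht : 0 < Nat.card (AddCommGroup.torsion ((WM N).map (Int.castRingHom ℚ)).toAffine.Point) := by
    obtain ⟨k, hk, he⟩ := Pool.Agent.V11291.F9.tors_two h.2.1
    have hk0 : 0 < k := hk.pos
    have he' : Nat.card (AddCommGroup.torsion ((WM N).map (Int.castRingHom ℚ)).toAffine.Point) =
      2 * k := he
    omega
  have e : an (WM N) (L₀ 1) = (w : ℂ) * (y : ℂ) ^ 2 := by
    unfold an
    rw [hf]
    have h3 : ((Omega (WM N) : ℝ) : ℂ) ≠ 0 := by exact_mod_cast hO.ne'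
    have h4 : (tamProd (WM N) : ℂ) ≠ 0 := by exact_mod_cast hT.ne'
    have h5 : (Nat.card (AddCommGroup.torsion ((WM N).map (Int.castRingHom ℚ)).toAffine.Point) : ℂ) ≠ 0 := by
      exact_mod_cast ht.ne'
    push_cast
    field_simp
  have e2 : v ((y : ℂ) ^ 2) ≤ 1 := by
    rw [map_pow]
    exact pow_le_one₀ zero_le (v_int_le v y)
  rw [e, map_mul, v_unit v h2 hw hv, one_mul]
  refine ⟨e2, ?_⟩
  rw [v_sq v h2, hy]
  rfl

theorem sha14 {N : ℤ} (h : AdmD N) (hz : RZ (WM N)) (n : ℕ)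
    (x : Pool.Agent.TH841.SH.D.Sha ((WM N).map (Int.castRingHom ℚ))) (hx : 2 ^ n • x = 0) :
    x = 0 :=
  Pool.Agent.V11291.F9.sha_two h ((rz14 h).1 hz) n x hx

/-! ### the second curve -/

theorem pos49 {L : ℤ} (h : Fam49 L) : ∃ (Q P : Finset ℕ) (j : ℕ), (∀ q ∈ Q, Inq q) ∧
    (∀ p ∈ P, Spl p) ∧ ∏ q ∈ Q ∪ P, q = 1 + 4 * j ∧ L = 1 + 4 * (j : ℤ) ∧
    E49.Cls Q P ∧ Q ∪ P = L.natAbs.primeFactors := by
  obtain ⟨h1, h2⟩ := h.cl
  refine ⟨L.natAbs.primeFactors.filter fun p => p % 8 = 5,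
    L.natAbs.primeFactors.filter fun p => p % 8 = 1, ?_⟩
  have hc := h1.cls
  have hm4 : (∏ p ∈ L.natAbs.primeFactors, p) % 4 = 1 := by
    refine E49.mod4_of fun p hp => ?_
    rcases h1 p hp with h3 | h3
    · have := h3.2.1
      omega
    · have := h3.2.1
      omega
  obtain ⟨j, hj⟩ : ∃ j, ∏ p ∈ L.natAbs.primeFactors, p = 1 + 4 * j :=
    ⟨(∏ p ∈ L.natAbs.primeFactors, p) / 4, by omega⟩
  refine ⟨j, fun q hq => ?_, fun p hp => ?_, by rw [h1.union, hj], ?_, hc, h1.union⟩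
  · have := hc.hQ q hq
    exact ⟨this.1, by have := this.2.1; omega, this.2.2⟩
  · have := hc.hP p hp
    exact ⟨this.1, by have := this.2.1; omega, this.2.2⟩
  · rw [← h2, PR_cast, hj]
    push_cast
    rfl

theorem rz49 {L : ℤ} (h : Fam49 L) : RZ (W49 L) ↔ R49 L := by
  obtain ⟨Q, P, j, hQ, hP, hj, hL, hc, hu⟩ := pos49 h
  have h1 := Pool.Agent.V11291.Q49.equiv_Q hQ hP hj
  have h2 := E49.det_iff49 hc
  obtain ⟨h3, h4⟩ := h.cl
  have h5 := E49.R49_PR h3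
  rw [h4] at h5
  rw [h5, ← hu, ← h2, h1, hL]
  unfold RZ
  rw [map49]

theorem main49 {L : ℤ} (h : Fam49 L) :
    ∃ Λ : ℂ → ℂ, IsL (W49 L) Λ ∧ ∀ (Γ : Type) [LinearOrderedCommGroupWithZero Γ]
      (v : Valuation ℂ Γ), v 2 < 1 → v (an (W49 L) (Λ 1)) ≤ 1 ∧
        (v (an (W49 L) (Λ 1)) = 1 ↔ RZ (W49 L)) := by
  obtain ⟨Q, P, j, hQ, hP, hj, hL, hc, hu⟩ := pos49 h
  obtain ⟨Λ, h1, h2⟩ := level49 hQ hP hj
  rw [rz49 h]
  obtain ⟨h3, h4⟩ := h.cl
  have h5 := E49.R49_PR h3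
  rw [h4] at h5
  rw [h5, ← hu, ← E49.det_iff49 hc, hL]
  exact ⟨Λ, h1, h2⟩

theorem sha49 {L : ℤ} (hz : RZ (W49 L)) (n : ℕ)
    (x : Pool.Agent.TH841.SH.D.Sha ((W49 L).map (Int.castRingHom ℚ))) (hx : 2 ^ n • x = 0) :
    x = 0 := by
  induction n generalizing x with
  | zero =>
    rw [pow_zero, one_smul] at hx
    exact hx
  | succ n ih =>
    refine ih x (hz.2 _ ?_)
    rw [← two_nsmul, ← mul_smul, ← pow_succ']
    exact hx

theorem minimal49 {L : ℤ} (h : Fam49 L) : Pool.Agent.W97.MT.IsGloballyMinimal (W49 L) := by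
  obtain ⟨Q, P, j, hQ, hP, hj, hL, hc, hu⟩ := pos49 h
  rw [hL]
  exact min49 (gp hQ hP) hj

theorem minimal14 {N : ℤ} (h : AdmD N) : Pool.Agent.W97.MT.IsGloballyMinimal (WM N) :=
  (Pool.Agent.Y814.BSD14.t_MIN N h.2.1 h.1 (by
    intro h'
    have := h.2.2.1
    omega)).1

/-! ### squarefree parts -/

/-- the squarefree part of `M * D` for squarefree `M` and `D` -/
def tw (M : ℤ) (D : ℕ) : ℤ := M * D / (Int.gcd M D : ℤ) ^ 2

theorem tw_spec {M : ℤ} {D : ℕ} (hM : Squarefree M) (hD : Squarefree D) :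
    Squarefree (tw M D) ∧ M * D = tw M D * (Int.gcd M D : ℤ) ^ 2 ∧ (Int.gcd M D : ℤ) ≠ 0 := by
  have hM0 := hM.ne_zero
  have hg0 : (Int.gcd M D : ℤ) ≠ 0 := by
    rw [Nat.cast_ne_zero]
    exact Int.gcd_ne_zero_left hM0
  obtain ⟨a, ha⟩ : (Int.gcd M D : ℤ) ∣ M := Int.gcd_dvd_left _ _
  obtain ⟨b, hb⟩ : (Int.gcd M D : ℤ) ∣ (D : ℤ) := Int.gcd_dvd_right _ _
  obtain ⟨g, hg⟩ : ∃ g : ℤ, g = (Int.gcd M D : ℤ) := ⟨_, rfl⟩
  rw [← hg] at ha hb hg0
  have e : M * D = (a * b) * g ^ 2 := by rw [ha, hb]; ring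
  have htw : tw M D = a * b := by
    unfold tw
    rw [← hg, e]
    exact Int.mul_ediv_cancel _ (pow_ne_zero 2 hg0)
  have hcop : IsCoprime a b := by
    rw [Int.isCoprime_iff_gcd_eq_one]
    have h1 : Int.gcd (g * a) (g * b) = Int.gcd M D := by rw [← ha, ← hb]
    rw [Int.gcd_mul_left] at h1
    have h2 : g.natAbs = Int.gcd M D := by rw [hg]; rfl
    rw [h2] at h1
    have h3 : 0 < Int.gcd M D := Nat.pos_of_ne_zero (Int.gcd_ne_zero_left hM0)
    exact Nat.eq_of_mul_eq_mul_left h3 (by rw [h1, mul_one])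
  have hDs : Squarefree (D : ℤ) := Int.squarefree_natCast.2 hD
  refine ⟨?_, ?_, by rwa [← hg]⟩
  · rw [htw]
    refine squarefree_mul_iff.2 ⟨hcop.isRelPrime, ?_, ?_⟩
    · rw [ha] at hM
      exact (squarefree_mul_iff.1 hM).2.2
    · rw [hb] at hDs
      exact (squarefree_mul_iff.1 hDs).2.2
  · rw [htw, ← hg, e]

theorem tw14 {M : ℤ} {D : ℕ} (hM : AdmD M) (hD : BaseN D) : AdmD (tw M D) := by
  obtain ⟨h1, h2, h3⟩ := tw_spec hM.1 hD.1
  obtain ⟨hC, hDD⟩ := of_adm hM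
  obtain ⟨hC', hDD'⟩ := of_adm hD.adm
  have h4 := DD_mul M.natAbs.primeFactors (D : ℤ).natAbs.primeFactors
  rw [hDD, hDD'] at h4
  have hne : DD (M.natAbs.primeFactors ∩ (D : ℤ).natAbs.primeFactors) ≠ 0 :=
    Pool.Agent.Y687.JQ.DD_ne fun p hp => (hC.prime p (Finset.mem_inter.1 hp).1).ne_zero
  have h5 := sqf_unique h1 (hC.symmDiff hC').sqf h3 hne (h2.symm.trans h4)
  rw [h5]
  exact (hC.symmDiff hC').adm

theorem tw49 {L : ℤ} {D : ℕ} (hL : Fam49 L) (hD : BaseN D) : Fam49 (tw L D) := by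
  obtain ⟨h1, h2, h3⟩ := tw_spec hL.1 hD.1
  obtain ⟨hC, hDD⟩ := hL.cl
  obtain ⟨hC', hDD'⟩ := hD.f49.cl
  have h4 := prod_symmDiff (fun p : ℕ => (p : ℤ)) L.natAbs.primeFactors
    (D : ℤ).natAbs.primeFactors
  have h5 : L * D = PR (symmDiff L.natAbs.primeFactors (D : ℤ).natAbs.primeFactors) *
      (PR (L.natAbs.primeFactors ∩ (D : ℤ).natAbs.primeFactors)) ^ 2 := by
    have h6 : L * D = PR L.natAbs.primeFactors * PR (D : ℤ).natAbs.primeFactors := by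
      rw [hDD, hDD']
    rw [h6]
    exact h4
  have hne : PR (L.natAbs.primeFactors ∩ (D : ℤ).natAbs.primeFactors) ≠ 0 := by
    unfold PR
    exact Finset.prod_ne_zero_iff.2 fun p hp => by
      have := (hC.prime p (Finset.mem_inter.1 hp).1).ne_zero
      exact_mod_cast this
  have hF := E49.Fam49_PR (hC.symmDiff hC')
  have h7 := sqf_unique h1 hF.1 h3 hne (h2.symm.trans h5)
  rw [h7]
  exact hF

theorem R14_tw {M : ℤ} {D : ℕ} (hM : AdmD M) (hD : BaseN D) : R14 (M * D) ↔ RZ (WM (tw M D)) := by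
  obtain ⟨h1, h2, h3⟩ := tw_spec hM.1 hD.1
  rw [h2, E49.R14_scale h1.ne_zero h3, E49.R14_det (tw14 hM hD), rz14 (tw14 hM hD)]

theorem R49_tw {L : ℤ} {D : ℕ} (hL : Fam49 L) (hD : BaseN D) : R49 (L * D) ↔ RZ (W49 (tw L D)) := by
  obtain ⟨h1, h2, h3⟩ := tw_spec hL.1 hD.1
  rw [h2, E49.R49_scale h1.ne_zero h3, rz49 (tw49 hL hD)]

theorem tw_one {M : ℤ} {D : ℕ} (hM : AdmD M) (hD : BaseN D) (h : tw M D = 1) : D = M.natAbs := by
  obtain ⟨h1, h2, h3⟩ := tw_spec hM.1 hD.1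
  rw [h, one_mul] at h2
  have hg1 : (Int.gcd M D : ℤ) ∣ M := Int.gcd_dvd_left _ _
  have hg2 : (Int.gcd M D : ℤ) ∣ (D : ℤ) := Int.gcd_dvd_right _ _
  obtain ⟨a, ha⟩ := hg1
  obtain ⟨b, hb⟩ := hg2
  obtain ⟨g, hg⟩ : ∃ g : ℤ, g = (Int.gcd M D : ℤ) := ⟨_, rfl⟩
  rw [← hg] at ha hb h2 h3
  have hab : a * b = 1 := by
    have h5 : g ^ 2 * (a * b) = g ^ 2 * 1 := by
      linear_combination h2 - ha * (D : ℤ) - g * a * hb
    exact mul_left_cancel₀ (pow_ne_zero 2 h3) h5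
  have ha1 := Int.natAbs_of_isUnit (IsUnit.of_mul_eq_one b hab)
  have hb1 := Int.natAbs_of_isUnit (IsUnit.of_mul_eq_one a (by rw [mul_comm]; exact hab))
  have e1 : M.natAbs = g.natAbs := by rw [ha, Int.natAbs_mul, ha1, mul_one]
  have e2 : D = g.natAbs := by
    have h6 : (D : ℤ).natAbs = g.natAbs := by rw [hb, Int.natAbs_mul, hb1, mul_one]
    rwa [Int.natAbs_natCast] at h6
  rw [e1, e2]

/-! ### the proportion -/

/-- **the joint proportion** -/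
theorem joint2 {S T : Finset ℤ} (hS : ∀ M ∈ S, AdmD M) (hT : ∀ L ∈ T, Fam49 L)
    (A B : WeierstrassCurve ℤ → Prop) (hA : ∀ N : ℤ, AdmD N → N ≠ 1 → (A (WM N) ↔ RZ (WM N)))
    (hA' : A (WM 1) → RZ (WM 1)) (hB : ∀ L : ℤ, Fam49 L → (B (W49 L) ↔ RZ (W49 L))) :
    Filter.Tendsto (fun X : ℕ => (((Finset.Icc 1 X).filter fun D : ℕ => BaseN D ∧
        (∀ M ∈ S, A (WM (tw M D))) ∧ ∀ L ∈ T, B (W49 (tw L D))).card : ℝ) /
      (((Finset.Icc 1 X).filter BaseN).card : ℝ)) Filter.atTop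
      (nhds ((∏' i : ℕ, (1 - (1 / 2 : ℝ) ^ (2 * i + 1))) ^ (S.card + T.card))) := by
  refine tendsto_exc BaseN (fun D => BaseN D ∧ (∀ M ∈ S, R14 (M * D)) ∧ ∀ L ∈ T, R49 (L * D)) _
    (S.image Int.natAbs) E49.base_infinite (fun D h => h.1) ?_ ?_ (E49.joint hS hT)
  · rintro D ⟨hD, h1, h2⟩
    refine ⟨hD, fun M hM => ?_, fun L hL => ?_⟩
    · rw [R14_tw (hS M hM) hD]
      by_cases h0 : tw M D = 1
      · have h3 := h1 M hM
        rw [h0] at h3 ⊢
        exact hA' h3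
      · exact (hA _ (tw14 (hS M hM) hD) h0).1 (h1 M hM)
    · rw [R49_tw (hT L hL) hD]
      exact (hB _ (tw49 (hT L hL) hD)).1 (h2 L hL)
  · rintro D ⟨hD, h1, h2⟩ hE
    refine ⟨hD, fun M hM => ?_, fun L hL => ?_⟩
    · refine (hA _ (tw14 (hS M hM) hD) fun h0 => hE ?_).2 ((R14_tw (hS M hM) hD).1 (h1 M hM))
      rw [Finset.mem_image]
      exact ⟨M, hM, (tw_one (hS M hM) hD h0).symm⟩
    · exact (hB _ (tw49 (hT L hL) hD)).2 ((R49_tw (hT L hL) hD).1 (h2 L hL))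

theorem card_flt {α : Type} (s : Finset α) (p q : α → Prop) (ip : DecidablePred p)
    (iq : DecidablePred q) (h : ∀ a, p a ↔ q a) :
    (@Finset.filter α p ip s).card = (@Finset.filter α q iq s).card :=
  congrArg Finset.card (Finset.ext fun a => (@Finset.mem_filter α p ip s a).trans
    ((and_congr_right fun _ => h a).trans (@Finset.mem_filter α q iq s a).symm))

theorem card_filter_true {α : Type} (s : Finset α) (inst : DecidablePred fun _ : α => True) :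
    (@Finset.filter α (fun _ => True) inst s).card = s.card :=
  congrArg Finset.card (@Finset.filter_true_of_mem α (fun _ => True) inst s fun _ _ => trivial)

/-- the size of the base class -/
theorem low2 : ∃ (c : ℝ) (X₀ : ℕ), 0 < c ∧ ∀ X : ℕ, X₀ ≤ X →
    c * X * (Real.log X) ^ (-(3 / 4) : ℝ) ≤ (((Finset.Icc 1 X).filter BaseN).card : ℝ) := by
  obtain ⟨c, X₀, hc, h⟩ := Pool.Agent.Y302.CQ.t_LOW Pool.Agent.Y405.CQ.t_MER
    Pool.Agent.Y302.CQ.t_CHE {5} {0} ⟨Or.inl rfl, Or.inl (Finset.mem_singleton_self 0)⟩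
  refine ⟨c, X₀, hc, fun X hX => ?_⟩
  have h1 := h X hX
  have e : (-1 + Pool.Agent.Y703.CQ.dl {5} : ℝ) = -(3 / 4) := by
    unfold Pool.Agent.Y703.CQ.dl
    rw [Finset.card_singleton]
    norm_num
  rw [e] at h1
  refine h1.trans (le_of_eq ?_)
  have h2 := Pool.Agent.Y514.CQ.card_eq {5} {0} X (fun _ => True)
  rw [card_filter_true] at h2
  have h4 : (Pool.Agent.Y703.CQ.SS {5} {0} X).card = ((Finset.Icc 1 X).filter BaseN).card := by
    refine h2.symm.trans (card_flt _ _ _ _ _ fun D => ?_)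
    rw [E49.base_iff, and_true]
  exact congrArg (fun n : ℕ => (n : ℝ)) h4

end Pool.Agent.V11291.T49
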