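import Pool.Agent.V11291.T49.Form
import Pool.Agent.V11291.Q49.Lf
import Pool.Agent.Y700.Lm

/-!
# The `L`-function of the twists of `X_0(49)` over `ℚ` and the formula modulo two
-/

set_option autoImplicit false

open WeierstrassCurve NumberField IsDedekindDomain MeasureTheory

open scoped Classical

namespace Pool.Agent.V11291.T49

open Pool.Agent.W97.MT (IsGloballyMinimal affCount ap)
open Pool.Agent.Y700 (tam tamProd IsL Omega psi)
open Pool.Agent.Y698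
open Pool.Agent.Y698.SG
open Pool.Agent.V11291.Q49 (exists_aux finQ normQ LS_eq tam_Q)
open W165.CE (pw)

attribute [local instance] normQ

section
variable {Q P : Finset ℕ} {j : ℕ}

/-- **the `L`-function** -/
theorem isL49 (hQ : ∀ q ∈ Q, Inq q) (hP : ∀ p ∈ P, Spl p) (hj : ∏ q ∈ Q ∪ P, q = 1 + 4 * j)
    {F : ℂ → ℂ} (g1 : Differentiable ℂ F) (g2 : ∀ z : ℂ, 3 / 2 < z.re →
      HasProd (fun p : Nat.Primes =>
      (1 - bc p * ((∏ q ∈ Q ∪ P, qch q (p : ℕ)) * ((p : ℕ) : ℂ) ^ (-z)) +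
      ec p * ((∏ q ∈ Q ∪ P, qch q (p : ℕ)) * ((p : ℕ) : ℂ) ^ (-z)) ^ 2)⁻¹) (F z)) :
    IsL (W49 (1 + 4 * (j : ℤ))) F := by
  have hG := gp hQ hP
  refine ⟨g1, fun s hs => ?_⟩
  have h1 := g2 s hs
  refine (congrArg (fun g => HasProd g _) (funext fun p => ?_)).mp h1
  have hp : (p : ℕ).Prime := p.2
  have : Fact (p : ℕ).Prime := ⟨hp⟩
  have hdv : ((p : ℕ) : ℤ) ∣ (W49 (1 + 4 * (j : ℤ))).Δ ↔ (p : ℕ) = 7 ∨ (p : ℕ) ∈ Q ∪ P := by
    rw [Int.natCast_dvd]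
    have h2 := congrArg (fun S : Finset ℕ => (p : ℕ) ∈ S) (pf49 hG hj)
    simp only [Finset.mem_insert] at h2
    rw [← h2, Nat.mem_primeFactors]
    constructor
    · intro h
      refine ⟨hp, h, ?_⟩
      rw [Int.natAbs_ne_zero]
      exact (min49 hG hj).1
    · exact fun h => h.2.1
  have e8 : ((p : ℕ) : ℂ) ^ (1 - 2 * s) = ((p : ℕ) : ℂ) * (((p : ℕ) : ℂ) ^ (-s)) ^ 2 := by
    rw [← Complex.cpow_nat_mul, sub_eq_add_neg, Complex.cpow_add _ _ (by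
      exact_mod_cast hp.ne_zero), Complex.cpow_one]
    congr 2
    push_cast
    ring
  unfold ap
  rw [aff49]
  by_cases hp7 : (p : ℕ) = 7
  · rw [if_pos (hdv.2 (Or.inl hp7))]
    have e1 : bc (p : ℕ) = 0 := by
      rw [hp7]
      have := bc_seven 0
      rwa [zero_add, pow_one] at this
    have e2 : ec (p : ℕ) = 0 := by unfold ec; rw [if_pos hp7]
    have e3 : Nat.card (AP (EX (ZMod (p : ℕ)) (j : ZMod (p : ℕ)))) = (p : ℕ) := by
      obtain ⟨q, hq⟩ := p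
      simp only at hp7 ⊢
      subst hp7
      exact card_seven
    rw [e1, e2, e3]
    norm_num
  · by_cases hpS : (p : ℕ) ∈ Q ∪ P
    · rw [if_pos (hdv.2 (Or.inr hpS))]
      have h5 : ∏ q ∈ Q ∪ P, qch q ((p : ℕ) : ℤ) = 0 := by
        refine Finset.prod_eq_zero hpS ?_
        rcases qch_val hp ((p : ℕ) : ℤ) with h | h
        · exact h.2
        · exact absurd dvd_rfl h.1
      rw [h5, card_bad (hG _ hpS).m4 ((dvd_iff hG hj hp).2 hpS)]
      norm_num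
    · rw [if_neg (fun h => (hdv.1 h).elim hp7 hpS)]
      have h5 := trace_tw (ZMod (p : ℕ)) hp hp7 one_ne_zero
        (by rw [Nat.card_zmod, pow_one]) hG hpS hj
      rw [Nat.card_zmod, pow_one] at h5
      have e : pw (bc (p : ℕ)) (ec (p : ℕ)) 1 = bc (p : ℕ) := rfl
      rw [e] at h5
      have h6 : (∏ q ∈ Q ∪ P, qch q ((p : ℕ) : ℤ)) ^ 2 = 1 := by
        refine qprod_sq (fun q hq => (hG q hq).pr) fun q hq hd => ?_
        have h1 : q ∣ (p : ℕ) := by exact_mod_cast hd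
        exact hpS (((Nat.prime_dvd_prime_iff_eq (hG q hq).pr hp).1 h1) ▸ hq)
      have e7 : ec (p : ℕ) = ((p : ℕ) : ℂ) := by unfold ec; rw [if_neg hp7]
      rw [h5, e7, mul_pow, h6, one_mul, e8]
      congr 1
      ring

/-- the order of `Ш` predicted by the formula in rank zero -/
noncomputable def an (W : WeierstrassCurve ℤ) (l : ℂ) : ℂ :=
  l * (Nat.card (AddCommGroup.torsion (W.map (Int.castRingHom ℚ)).toAffine.Point) : ℂ) ^ 2 /
    ((Omega W : ℝ) * (tamProd W : ℂ))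

theorem tors_eq (W : WeierstrassCurve ℚ) :
    Nat.card (AddCommGroup.torsion W.toAffine.Point) = tnum W :=
  congrArg (fun d : DecidableEq ℚ => Nat.card (@AddCommGroup.torsion _
    (@Affine.Point.instAddCommGroup ℚ _ W.toAffine d))) (Subsingleton.elim _ _)

theorem psi_eq (x : ℝ) : Pool.Agent.Y700.psi (W49 (1 + 4 * (j : ℤ))) x = psD (1 + 4 * j) x := by
  rw [W49_eq]
  unfold Pool.Agent.Y700.psi WeierstrassCurve.b₂ WeierstrassCurve.b₄ WeierstrassCurve.b₆ psD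
  push_cast
  ring

theorem Omega_eq : Omega (W49 (1 + 4 * (j : ℤ))) =
    ∫ x in {x : ℝ | 0 < psD (1 + 4 * j) x}, 2 / Real.sqrt (psD (1 + 4 * j) x) := by
  unfold Omega
  simp only [psi_eq]

theorem an_eq (hQ : ∀ q ∈ Q, Inq q) (hP : ∀ p ∈ P, Spl p) (hj : ∏ q ∈ Q ∪ P, q = 1 + 4 * j)
    (l : ℂ) : an (W49 (1 + 4 * (j : ℤ))) l = quoT ℚ j l := by
  have h1 : (discr ℚ : ℤ) = 1 := Rat.numberField_discr
  have h2 : InfinitePlace.nrRealPlaces ℚ = 1 :=
    InfinitePlace.nrRealPlaces_eq_one_of_finrank_eq_one finQ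
  have h3 : InfinitePlace.nrComplexPlaces ℚ = 0 :=
    InfinitePlace.nrComplexPlaces_eq_zero_of_finrank_eq_one finQ
  unfold an quoT
  rw [Omega_eq, tors_eq, map49, h1, h2, h3, pow_one, pow_zero, mul_one, tamProd49 hQ hP hj,
    tam_Q hQ hP hj, Int.cast_one, abs_one, Real.sqrt_one, Complex.ofReal_one, mul_one]

/-- **the formula modulo two** -/
theorem level49 (hQ : ∀ q ∈ Q, Inq q) (hP : ∀ p ∈ P, Spl p) (hj : ∏ q ∈ Q ∪ P, q = 1 + 4 * j) :
    ∃ Λ : ℂ → ℂ, IsL (W49 (1 + 4 * (j : ℤ))) Λ ∧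
      ∀ (Γ : Type) [LinearOrderedCommGroupWithZero Γ] (v : Valuation ℂ Γ), v 2 < 1 →
        v (an (W49 (1 + 4 * (j : ℤ))) (Λ 1)) ≤ 1 ∧
        (v (an (W49 (1 + 4 * (j : ℤ))) (Λ 1)) = 1 ↔ (mat Q P).det ≠ 0) := by
  simp only [an_eq hQ hP hj]
  obtain ⟨L, Ω, hL⟩ := exists_LD
  obtain ⟨r, hir, hrS⟩ := exists_aux (Q ∪ P)
  have : Fact r.Prime := ⟨hir.pr⟩
  have hM : IsCyclotomicExtension {r} ℚ (CyclotomicField r ℚ) := cyc_inst r
  have htam := tam_Q hQ hP hj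
  have hn0 : Module.finrank ℚ ℚ = 2 ^ 0 := finQ
  by_cases hdet : (mat Q P).det = 0
  · obtain ⟨F, g1, g2, g4⟩ := val_quad0 inp Pool.Agent.Y21.SG.t_NSI hQ hP hdet
    have h2 := LS_eq hQ hP hj g2
    refine ⟨F, isL49 hQ hP hj g1 g2, fun Γ _ v hv => ?_⟩
    have hreal : (starRingEnd ℂ) (F 1) = F 1 := conj_val g1 (fun k => (AX ℚ j).LFunction k) h2
    have hΩ : v Ω ≠ 0 := (v.ne_zero_iff).2 hL.lat.ne
    have h20 : v 2 ≠ 0 := (v.ne_zero_iff).2 two_ne_zero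
    have k1 := val_all0 (N := 2 ^ 0) (e := Q.card + 2 * P.card) hreal hL
      (fun Γ _ v hv => by rw [pow_zero, pow_one]; exact g4 Γ v L Ω hL hv) v hv
    have key : v (quoT ℚ j (F 1)) < 1 := by
      rw [v_quoG (CyclotomicField r ℚ) ℚ hn0 hir htam hL (F 1) v hv]
      exact (div_lt_one₀ (zero_lt_iff.2 (mul_ne_zero (pow_ne_zero _ h20) (pow_ne_zero _ hΩ)))).2 k1
    exact ⟨key.le, iff_of_false key.ne (not_not.2 hdet)⟩
  · obtain ⟨F, g1, g2, g4⟩ := val_quad' inp hQ hP hdet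
    have h2 := LS_eq hQ hP hj g2
    refine ⟨F, isL49 hQ hP hj g1 g2, fun Γ _ v hv => ?_⟩
    have hreal : (starRingEnd ℂ) (F 1) = F 1 := conj_val g1 (fun k => (AX ℚ j).LFunction k) h2
    have hΩ : v Ω ≠ 0 := (v.ne_zero_iff).2 hL.lat.ne
    have h20 : v 2 ≠ 0 := (v.ne_zero_iff).2 two_ne_zero
    have k1 := val_allD (N := 2 ^ 0) (e := Q.card + 2 * P.card) hreal hL
      (fun Γ _ v hv => by rw [pow_zero, pow_one]; exact g4 Γ v L Ω hL hv) v hv
    have key : v (quoT ℚ j (F 1)) = 1 := by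
      rw [v_quoG (CyclotomicField r ℚ) ℚ hn0 hir htam hL (F 1) v hv, k1]
      exact div_self (mul_ne_zero (pow_ne_zero _ h20) (pow_ne_zero _ hΩ))
    exact ⟨key.le, iff_of_true key hdet⟩

end

end Pool.Agent.V11291.T49
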